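import Pool.Agent.H87.LB.Lim
import Pool.Agent.H14.LB.Hyp

/-!
# No line of the second flow meets two different translates of a neighbourhood of `S`
-/

open scoped Pointwise

noncomputable section

namespace LB

variable {G : Type} [Group G]

/-- `g` is shadowed by a line of `Φ`. -/
def Shadowed {u : G →* Multiplicative ℤ} (Φ : FlowSystem G u) (g : G) : Prop :=
  ∃ γ : ℤ → G, Φ.IsLine γ ∧ ∃ D : Finset G, ∀ i : ℤ, ∃ j, (g ^ i)⁻¹ * γ j ∈ D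

/-- If `g` is not shadowed then no line passes near `1, g, …, g ^ l` for some `l`. -/
theorem FlowSystem.not_near {u : G →* Multiplicative ℤ} (Φ : FlowSystem G u) {g : G}
    (hg : ¬ Shadowed Φ g) (D : Finset G) : ∃ l : ℕ, ∀ γ : ℤ → G, Φ.IsLine γ →
      ¬ ∀ i : ℤ, 0 ≤ i → i ≤ l → ∃ c, (g ^ i)⁻¹ * γ c ∈ D := by
  by_contra hcon
  push Not at hcon
  refine hg ?_
  obtain ⟨γ, hγ, h⟩ := Φ.lim_line (fun i => g ^ i) D fun n => by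
    obtain ⟨γ, hγ, h⟩ := hcon (2 * n)
    refine ⟨fun i => (g ^ (n : ℤ))⁻¹ * γ i, Φ.isLine_smul _ hγ, fun i hi => ?_⟩
    have h1 := abs_le.1 hi
    obtain ⟨c, hc⟩ := h (i + n) (by linarith [h1.1]) (by push_cast; linarith [h1.2])
    refine ⟨c, ?_⟩
    have e : (g ^ i)⁻¹ * ((g ^ (n : ℤ))⁻¹ * γ c) = (g ^ (i + n))⁻¹ * γ c := by
      rw [add_comm, zpow_add]
      group
    change (g ^ i)⁻¹ * ((g ^ (n : ℤ))⁻¹ * γ c) ∈ D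
    rw [e]
    exact hc
  exact ⟨γ, hγ, D, h⟩

/-- STAR -/
theorem Published.star (P : Published G) (g : G) (hu : P.u g ≠ 1) (hg : ¬ Shadowed P.Φ₂ g)
    (S : Subgroup G) (hS : QuasiConvex P.A S) (hgS : ∀ n : ℤ, n ≠ 0 → g ^ n ∉ S) (B : Finset G) :
    ∃ m : ℕ, 0 < m ∧ ∀ γ : ℤ → G, P.Φ₂.IsLine γ → ∀ j : ℤ, j ≠ 0 → ∀ a b : ℤ,
      γ a ∈ (S : Set G) * (B : Set G) →
        (g ^ ((m : ℤ) * j))⁻¹ * γ b ∉ (S : Set G) * (B : Set G) := by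
  obtain ⟨C, hC⟩ := P.Φ₂.isQG_line P.A P.genA
  obtain ⟨D, j0, hD⟩ := P.bridge S hS g hu hgS C B
  obtain ⟨l, hl⟩ := P.Φ₂.not_near hg D
  refine ⟨j0 + l + 1, by omega, ?_⟩
  intro γ hγ j hj a b ha hb
  obtain ⟨k, hk⟩ : ∃ k : ℤ, k = ((j0 + l + 1 : ℕ) : ℤ) * j := ⟨_, rfl⟩
  rw [← hk] at hb
  have hk' : ((j0 + l + 1 : ℕ) : ℤ) ≤ |k| := by
    rw [hk, abs_mul, Nat.abs_cast]
    have h1 : (1 : ℤ) ≤ |j| := Int.one_le_abs hj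
    nlinarith
  push_cast at hk'
  have hnear : ∀ i : ℤ, (0 ≤ i ∧ i ≤ k) ∨ (k ≤ i ∧ i ≤ 0) → ∃ c : ℤ, (g ^ i)⁻¹ * γ c ∈ D := by
    intro i hi
    rcases le_total a b with hab | hab
    · obtain ⟨c, _, _, hc⟩ := hD k (by linarith) γ a b hab (hC γ hγ a b) (Or.inl ⟨ha, hb⟩) i hi
      exact ⟨c, hc⟩
    · obtain ⟨c, _, _, hc⟩ := hD k (by linarith) γ b a hab (hC γ hγ b a) (Or.inr ⟨ha, hb⟩) i hi
      exact ⟨c, hc⟩
  rcases le_total 0 k with hk0 | hk0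
  · rw [abs_of_nonneg hk0] at hk'
    exact hl γ hγ fun i hi0 hil => hnear i (Or.inl ⟨hi0, by linarith⟩)
  · rw [abs_of_nonpos hk0] at hk'
    refine hl (fun i => (g ^ k)⁻¹ * γ i) (P.Φ₂.isLine_smul _ hγ) fun i hi0 hil => ?_
    obtain ⟨c, hc⟩ := hnear (i + k) (Or.inr ⟨by linarith, by linarith⟩)
    refine ⟨c, ?_⟩
    have e : (g ^ i)⁻¹ * ((g ^ k)⁻¹ * γ c) = (g ^ (i + k))⁻¹ * γ c := by
      rw [add_comm, zpow_add]
      group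
    change (g ^ i)⁻¹ * ((g ^ k)⁻¹ * γ c) ∈ D
    rw [e]
    exact hc

end LB
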