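import Pool.Agent.H14.LB.Flow

/-!
# Limits of coarse lines which stay near a given sequence
-/

open scoped Pointwise

noncomputable section

namespace LB

namespace FlowSystem

variable {G : Type} [Group G] {u : G →* Multiplicative ℤ} (Φ : FlowSystem G u)

/-- all `n`-th points of the lines which start in a finite set are in a finite set -/
theorem exists_finite_of_start {E : Set G} (hE : E.Finite) {W : Set G} (hW : W.Finite) (k : ℤ) :
    ∃ V : Set G, V.Finite ∧ ∀ γ : ℤ → G, (∀ i, (γ i)⁻¹ * γ (i + 1) ∈ E) → γ 0 ∈ W → γ k ∈ V := by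
  induction k using Int.induction_on with
  | zero => exact ⟨W, hW, fun γ _ h => h⟩
  | succ k ih =>
    obtain ⟨V, hV, h⟩ := ih
    refine ⟨V * E, hV.mul hE, fun γ hγ h0 => ?_⟩
    refine Set.mem_mul.2 ⟨γ k, h γ hγ h0, _, hγ k, ?_⟩
    group
  | pred k ih =>
    obtain ⟨V, hV, h⟩ := ih
    refine ⟨V * E⁻¹, hV.mul hE.inv, fun γ hγ h0 => ?_⟩
    have h1 := hγ (-(k : ℤ) - 1)
    rw [sub_add_cancel] at h1
    refine Set.mem_mul.2 ⟨γ (-(k : ℤ)), h γ hγ h0, _, Set.inv_mem_inv.2 h1, ?_⟩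
    group

/-- A sequence whose long pieces are near to coarse lines is near to a coarse line. -/
theorem lim_line (ρ : ℤ → G) (D : Finset G)
    (h : ∀ n : ℕ, ∃ γ : ℤ → G, Φ.IsLine γ ∧ ∀ i : ℤ, |i| ≤ n → ∃ j, (ρ i)⁻¹ * γ j ∈ D) :
    ∃ γ : ℤ → G, Φ.IsLine γ ∧ ∀ i, ∃ j, (ρ i)⁻¹ * γ j ∈ D := by
  obtain ⟨E, hE⟩ := Φ.exists_steps
  -- the lines start near `ρ 0`
  have h1 : ∀ n : ℕ, ∃ γ : ℤ → G, Φ.IsLine γ ∧ (ρ 0)⁻¹ * γ 0 ∈ D ∧
      ∀ i : ℤ, |i| ≤ n → ∃ j, (ρ i)⁻¹ * γ j ∈ D := by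
    intro n
    obtain ⟨γ, hγ, hn⟩ := h n
    obtain ⟨j0, hj0⟩ := hn 0 (by simp)
    refine ⟨fun i => γ (i + j0), Φ.isLine_shift j0 hγ, by simpa using hj0, fun i hi => ?_⟩
    obtain ⟨j, hj⟩ := hn i hi
    exact ⟨j - j0, by simpa using hj⟩
  choose γs hline h0 hnear using h1
  -- finitely many values
  have hW : {x : G | (ρ 0)⁻¹ * x ∈ D}.Finite := by
    refine ((D.finite_toSet).image fun d => ρ 0 * d).subset ?_
    intro x hx
    exact ⟨(ρ 0)⁻¹ * x, hx, by group⟩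
  have hval : ∀ k : ℤ, ∃ x : G, ∀ᶠ n in (Filter.hyperfilter ℕ : Filter ℕ), γs n k = x := by
    intro k
    obtain ⟨V, hV, hVk⟩ := exists_finite_of_start (E.finite_toSet) hW k
    have h2 : ∀ᶠ n in (Filter.hyperfilter ℕ : Filter ℕ), ∃ x ∈ V, γs n k = x :=
      Filter.Eventually.of_forall fun n =>
        ⟨γs n k, hVk (γs n) (fun i => hE _ (hline n) i) (h0 n), rfl⟩
    obtain ⟨x, _, hx⟩ := (Ultrafilter.eventually_exists_mem_iff hV).1 h2
    exact ⟨x, hx⟩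
  choose γ hγ using hval
  refine ⟨γ, Φ.isLine_of_limit (Filter.hyperfilter ℕ) γs hline γ hγ, fun i => ?_⟩
  -- the heights determine `j` up to a bounded error
  have hJ : {j : ℤ | ∃ d ∈ D, ∃ d' ∈ D,
      (u (ρ i)).toAdd + (u d).toAdd = (u (ρ 0)).toAdd + (u d').toAdd + j}.Finite := by
    refine (((D.finite_toSet).prod (D.finite_toSet)).image fun p =>
      (u (ρ i)).toAdd + (u p.1).toAdd - (u (ρ 0)).toAdd - (u p.2).toAdd).subset ?_
    rintro j ⟨d, hd, d', hd', hj⟩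
    refine ⟨(d, d'), ⟨hd, hd'⟩, ?_⟩
    change (u (ρ i)).toAdd + (u d).toAdd - (u (ρ 0)).toAdd - (u d').toAdd = j
    linarith
  have h3 : ∀ᶠ n in (Filter.hyperfilter ℕ : Filter ℕ), ∃ j ∈ {j : ℤ | ∃ d ∈ D, ∃ d' ∈ D,
      (u (ρ i)).toAdd + (u d).toAdd = (u (ρ 0)).toAdd + (u d').toAdd + j},
        (ρ i)⁻¹ * γs n j ∈ D := by
    have h4 : ∀ᶠ n in Filter.atTop, |i| ≤ ((n : ℕ) : ℤ) := by
      filter_upwards [Filter.eventually_ge_atTop i.natAbs] with n hn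
      rw [Int.abs_eq_natAbs]
      exact_mod_cast hn
    have h5 : ∀ᶠ n in (Filter.hyperfilter ℕ : Filter ℕ), |i| ≤ ((n : ℕ) : ℤ) :=
      Filter.Eventually.filter_mono (Nat.cofinite_eq_atTop ▸ Filter.hyperfilter_le_cofinite) h4
    filter_upwards [h5] with n hn
    obtain ⟨j, hj⟩ := hnear n i hn
    refine ⟨j, ⟨_, hj, _, h0 n, ?_⟩, hj⟩
    have h6 := Φ.height_line (hline n) 0 j
    have e1 : γs n j = ρ i * ((ρ i)⁻¹ * γs n j) := by group
    have e2 : γs n 0 = ρ 0 * ((ρ 0)⁻¹ * γs n 0) := by group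
    rw [sub_zero] at h6
    have h7 : (u (γs n j)).toAdd = (u (ρ i)).toAdd + (u ((ρ i)⁻¹ * γs n j)).toAdd := by
      rw [← toAdd_mul, ← map_mul, ← e1]
    have h8 : (u (γs n 0)).toAdd = (u (ρ 0)).toAdd + (u ((ρ 0)⁻¹ * γs n 0)).toAdd := by
      rw [← toAdd_mul, ← map_mul, ← e2]
    rw [← h7, ← h8]
    exact h6
  obtain ⟨j, _, hj⟩ := (Ultrafilter.eventually_exists_mem_iff hJ).1 h3
  obtain ⟨n, hn1, hn2⟩ := (hj.and (hγ j)).exists
  exact ⟨j, by rw [← hn2]; exact hn1⟩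

end FlowSystem

end LB
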